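import Pool.Agent.Helper98.EX.Stmts2

set_option autoImplicit false

/-!
# Module GS : modified left rates
-/

namespace Pool.Agent.Helper98.EX

open Finset

theorem gs_RR_split (r l : ℕ → ℝ) {z y x : ℕ} (h1 : z ≤ y) (h2 : y ≤ x) :
    RR r l z x = RR r l z y * RR r l y x := by
  unfold RR
  exact (Finset.prod_Ioc_consecutive _ h1 h2).symm

theorem gs_RR_nonneg {N : ℕ} {r l : ℕ → ℝ} (hA : Adm N r l) {z x : ℕ} (hx : x < N) :
    0 ≤ RR r l z x := by
  unfold RR
  refine Finset.prod_nonneg fun b hb => ?_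
  rw [Finset.mem_Ioc] at hb
  obtain ⟨h1, -, h3, -⟩ := hA b (by omega) (by omega)
  positivity

theorem gs_RR_succ (r l : ℕ → ℝ) {z b : ℕ} (h : z < b) :
    RR r l z b = RR r l z (b - 1) * (l b / r b) := by
  have h1 := gs_RR_split r l (z := z) (y := b - 1) (x := b) (by omega) (by omega)
  rw [h1]
  congr 1
  unfold RR
  have : Finset.Ioc (b - 1) b = {b} := by
    ext i
    rw [Finset.mem_Ioc, Finset.mem_singleton]
    omega
  rw [this, Finset.prod_singleton]

theorem gs_RR_congr {r l l' : ℕ → ℝ} {z x : ℕ} (h : ∀ b, z < b → b ≤ x → l' b = l b) :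
    RR r l' z x = RR r l z x := by
  unfold RR
  refine Finset.prod_congr rfl fun b hb => ?_
  rw [Finset.mem_Ioc] at hb
  rw [h b hb.1 hb.2]

/-- comparison of the resistance ratios -/
theorem gs_key {N : ℕ} {r l : ℕ → ℝ} {a : ℝ} (ha : 2 ≤ a) (hA : Adm N r l)
    (hr : ∀ x, 1 ≤ x → x < N → (a ^ 2)⁻¹ ≤ r x)
    (hub : ∀ z x, z ≤ x → x < N → RR r l z x ≤ a ^ 2) (z : ℕ) :
    ∀ x, z ≤ x → x < N →
      RR r (fun y => max (l y) (a ^ 100)⁻¹) z x ≤ RR r l z x + (a ^ 90)⁻¹ := by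
  intro x
  induction x using Nat.strong_induction_on with
  | _ x ih =>
    intro hzx hxN
    have ha0 : (0 : ℝ) < a := by linarith
    have hpos : (0 : ℝ) < (a ^ 90)⁻¹ := by positivity
    by_cases hm : ∃ b, z < b ∧ b ≤ x ∧ l b < (a ^ 100)⁻¹
    · -- last modified bond
      classical
      have hne : ((Finset.Ioc z x).filter (fun b => l b < (a ^ 100)⁻¹)).Nonempty := by
        obtain ⟨b, h1, h2, h3⟩ := hm
        exact ⟨b, by rw [Finset.mem_filter, Finset.mem_Ioc]; exact ⟨⟨h1, h2⟩, h3⟩⟩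
      obtain ⟨b, hb, hmax⟩ := Finset.exists_max_image _ (fun b => b) hne
      rw [Finset.mem_filter, Finset.mem_Ioc] at hb
      obtain ⟨⟨hb1, hb2⟩, hb3⟩ := hb
      have hlast : ∀ c, b < c → c ≤ x → max (l c) (a ^ 100)⁻¹ = l c := by
        intro c hc1 hc2
        refine max_eq_left ?_
        by_contra hcon
        push Not at hcon
        have := hmax c (by rw [Finset.mem_filter, Finset.mem_Ioc]; exact ⟨⟨by omega, hc2⟩, hcon⟩)
        omega
      rw [gs_RR_split _ _ (le_of_lt hb1) hb2, gs_RR_succ _ _ hb1,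
        gs_RR_congr (l := l) (l' := fun y => max (l y) (a ^ 100)⁻¹) (z := b) (x := x) hlast]
      have e1 : max (l b) (a ^ 100)⁻¹ = (a ^ 100)⁻¹ := max_eq_right hb3.le
      simp only [e1]
      have i1 := ih (b - 1) (by omega) (by omega) (by omega)
      have i2 := hub z (b - 1) (by omega) (by omega)
      have i3 := hub b x hb2 hxN
      have i4 := hr b (by omega) (by omega)
      have i5 : (a ^ 90)⁻¹ ≤ 1 := by
        apply inv_le_one_of_one_le₀
        exact one_le_pow₀ (by linarith)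
      have i6 : RR r (fun y => max (l y) (a ^ 100)⁻¹) z (b - 1) ≤ a ^ 2 + 1 := by linarith
      have i7 : (a ^ 100)⁻¹ / r b ≤ (a ^ 100)⁻¹ * a ^ 2 := by
        rw [div_eq_mul_inv]
        refine mul_le_mul_of_nonneg_left ?_ (by positivity)
        rw [inv_le_comm₀ (lt_of_lt_of_le (by positivity) i4) (by positivity)]
        exact i4
      have hrb : 0 < r b := lt_of_lt_of_le (by positivity) i4
      have n1 : 0 ≤ RR r (fun y => max (l y) (a ^ 100)⁻¹) z (b - 1) := by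
        unfold RR
        refine Finset.prod_nonneg fun c hc => ?_
        rw [Finset.mem_Ioc] at hc
        obtain ⟨h1, -, h3, -⟩ := hA c (by omega) (by omega)
        have : 0 ≤ max (l c) (a ^ 100)⁻¹ := le_max_of_le_left h3
        positivity
      have n2 : 0 ≤ RR r l b x := gs_RR_nonneg hA hxN
      have hb0 : 0 ≤ RR r l z x := gs_RR_nonneg hA hxN
      have hprod : RR r (fun y => max (l y) (a ^ 100)⁻¹) z (b - 1) * ((a ^ 100)⁻¹ / r b) *
          RR r l b x ≤ (a ^ 2 + 1) * ((a ^ 100)⁻¹ * a ^ 2) * a ^ 2 := by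
        refine mul_le_mul (mul_le_mul i6 i7 (by positivity) (by positivity)) i3 n2 (by positivity)
      have hfin : (a ^ 2 + 1) * ((a ^ 100)⁻¹ * a ^ 2) * a ^ 2 ≤ (a ^ 90)⁻¹ := by
        have e : (a ^ 2 + 1) * ((a ^ 100)⁻¹ * a ^ 2) * a ^ 2 =
            ((a ^ 2 + 1) * a ^ 94) * ((a ^ 100)⁻¹ * (a ^ 90)⁻¹) := by
          field_simp
        have e2 : (a ^ 90)⁻¹ = a ^ 100 * ((a ^ 100)⁻¹ * (a ^ 90)⁻¹) := by
          field_simp
        have e3 : (a ^ 2 + 1) * a ^ 94 ≤ a ^ 100 := by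
         have : a ^ 2 + 1 ≤ a ^ 6 := by
          have h4 : (4 : ℝ) ≤ a ^ 2 := by nlinarith
          have h5 : a ^ 6 = a ^ 2 * a ^ 2 * a ^ 2 := by ring
          rw [h5]
          have h6 : (4 : ℝ) * a ^ 2 ≤ a ^ 2 * a ^ 2 := mul_le_mul_of_nonneg_right h4 (by positivity)
          have h7 : 4 * (a ^ 2 * a ^ 2) ≤ a ^ 2 * (a ^ 2 * a ^ 2) :=
            mul_le_mul_of_nonneg_right h4 (by positivity)
          nlinarith
         calc (a ^ 2 + 1) * a ^ 94 ≤ a ^ 6 * a ^ 94 :=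
              mul_le_mul_of_nonneg_right this (by positivity)
          _ = a ^ 100 := by ring
        calc (a ^ 2 + 1) * ((a ^ 100)⁻¹ * a ^ 2) * a ^ 2
            = ((a ^ 2 + 1) * a ^ 94) * ((a ^ 100)⁻¹ * (a ^ 90)⁻¹) := e
          _ ≤ a ^ 100 * ((a ^ 100)⁻¹ * (a ^ 90)⁻¹) :=
              mul_le_mul_of_nonneg_right e3 (by positivity)
          _ = (a ^ 90)⁻¹ := e2.symm
      linarith
    · push Not at hm
      have := gs_RR_congr (r := r) (l := l) (l' := fun y => max (l y) (a ^ 100)⁻¹) (z := z)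
        (x := x) (fun b h1 h2 => max_eq_left (hm b h1 h2))
      rw [this]
      linarith

/-- mirrored resistance ratios -/
theorem gs_RR_mirr {N : ℕ} (r l : ℕ → ℝ) {z x : ℕ} (hx : x < N) (hz : z ≤ x) :
    RR (mirr N r) (mirr N l) z x = RR r l (N - 1 - x) (N - 1 - z) := by
  unfold RR mirr
  refine Finset.prod_nbij' (fun b => N - b) (fun b => N - b) ?_ ?_ ?_ ?_ ?_
  · intro b hb
    rw [Finset.mem_Ioc] at hb ⊢
    omega
  · intro b hb
    rw [Finset.mem_Ioc] at hb ⊢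
    omega
  · intro b hb
    rw [Finset.mem_Ioc] at hb
    omega
  · intro b hb
    rw [Finset.mem_Ioc] at hb
    omega
  · intro b _
    rfl

/-- the weights -/
theorem gs_atl {N : ℕ} {r l l' : ℕ → ℝ} {a η0 : ℝ} {w y : ℕ} (ha : 2 ≤ a) (haN : a = N)
    (hη : 0 < η0)
    (hr : (a ^ 2)⁻¹ ≤ r (y + 1)) (ht : (1 + η0) ^ (w + 1) ≤ a) (hy : y + 1 < N)
    (hR : ∀ z x, z ≤ x → x < N → RR r l' z x ≤ RR r l z x + (a ^ 90)⁻¹) :
    atl r l' η0 w y ≤ atl r l η0 w y + 1 := by
  have ha0 : (0 : ℝ) < a := by linarith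
  have hrp : 0 < r (y + 1) := lt_of_lt_of_le (by positivity) hr
  have hri : (r (y + 1))⁻¹ ≤ a ^ 2 := by
    rw [inv_le_comm₀ hrp (by positivity)]
    exact hr
  have h1 : atl r l' η0 w y ≤ ∑ d ∈ Finset.range (min w (y + 1)),
      ((1 + η0) ^ (d + 1) * RR r l (y - d) y / r (y + 1) + a * (a ^ 90)⁻¹ * a ^ 2) := by
    unfold atl
    refine Finset.sum_le_sum fun d hd => ?_
    rw [Finset.mem_range] at hd
    have hdw : d < w := lt_of_lt_of_le hd (min_le_left _ _)
    have i1 := hR (y - d) y (by omega) (by omega)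
    have i2 : (1 + η0) ^ (d + 1) ≤ a := by
      refine le_trans ?_ ht
      exact pow_le_pow_right₀ (by linarith) (by omega)
    have i3 : (0 : ℝ) ≤ (1 + η0) ^ (d + 1) := by positivity
    calc (1 + η0) ^ (d + 1) * RR r l' (y - d) y / r (y + 1)
        ≤ (1 + η0) ^ (d + 1) * (RR r l (y - d) y + (a ^ 90)⁻¹) / r (y + 1) := by
          refine div_le_div_of_nonneg_right ?_ hrp.le
          exact mul_le_mul_of_nonneg_left i1 i3
      _ = (1 + η0) ^ (d + 1) * RR r l (y - d) y / r (y + 1) +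
          (1 + η0) ^ (d + 1) * (a ^ 90)⁻¹ * (r (y + 1))⁻¹ := by
          field_simp
      _ ≤ _ := by
          have : (1 + η0) ^ (d + 1) * (a ^ 90)⁻¹ * (r (y + 1))⁻¹ ≤ a * (a ^ 90)⁻¹ * a ^ 2 := by
            refine mul_le_mul (mul_le_mul_of_nonneg_right i2 (by positivity)) hri ?_ (by positivity)
            exact inv_nonneg.mpr hrp.le
          linarith
  rw [Finset.sum_add_distrib, Finset.sum_const, Finset.card_range, nsmul_eq_mul] at h1
  have h2 : ((min w (y + 1) : ℕ) : ℝ) ≤ a := by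
    rw [haN]
    exact_mod_cast le_trans (min_le_right _ _) hy.le
  have h3 : ((min w (y + 1) : ℕ) : ℝ) * (a * (a ^ 90)⁻¹ * a ^ 2) ≤ 1 := by
    calc ((min w (y + 1) : ℕ) : ℝ) * (a * (a ^ 90)⁻¹ * a ^ 2)
        ≤ a * (a * (a ^ 90)⁻¹ * a ^ 2) := mul_le_mul_of_nonneg_right h2 (by positivity)
      _ = a ^ 4 * (a ^ 90)⁻¹ := by ring
      _ = (a ^ 86)⁻¹ := by field_simp
      _ ≤ 1 := inv_le_one_of_one_le₀ (one_le_pow₀ (by linarith))
  have h4 : ∑ d ∈ Finset.range (min w (y + 1)),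
      ((1 + η0) ^ (d + 1) * RR r l (y - d) y / r (y + 1)) = atl r l η0 w y := rfl
  rw [h4] at h1
  linarith

theorem gs_atl_nonneg {N : ℕ} {r l : ℕ → ℝ} {η0 : ℝ} {w y : ℕ} (hA : Adm N r l)
    (hη : 0 < η0) (hy : y + 1 < N) : 0 ≤ atl r l η0 w y := by
  unfold atl
  refine Finset.sum_nonneg fun d _ => ?_
  have h1 := gs_RR_nonneg hA (z := y - d) (x := y) (by omega)
  have h2 := (hA (y + 1) (by omega) hy).1
  positivity

theorem gs_adm_mirr {N : ℕ} {r l : ℕ → ℝ} (hA : Adm N r l) : Adm N (mirr N r) (mirr N l) := by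
  intro x h1 h2
  exact hA (N - x) (by omega) (by omega)

theorem gs_sum_atl {N : ℕ} {f g : ℕ → ℝ} {C : ℝ} {m : ℕ} (hm : m + 1 ≤ N)
    (hfg : ∀ y, y < m → f y ≤ g y + 1) (hg : ∀ y, y + 1 < N → 0 ≤ g y)
    (hs : ∑ y ∈ Finset.range (N - 1), g y ≤ C * N) :
    ∑ y ∈ Finset.Ico 0 m, f y ≤ (C + 1) * N := by
  rw [← Finset.range_eq_Ico]
  calc ∑ y ∈ Finset.range m, f y ≤ ∑ y ∈ Finset.range m, (g y + 1) :=
        Finset.sum_le_sum fun y hy => hfg y (Finset.mem_range.mp hy)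
    _ = ∑ y ∈ Finset.range m, g y + m := by
        rw [Finset.sum_add_distrib, Finset.sum_const, Finset.card_range, nsmul_eq_mul, mul_one]
    _ ≤ ∑ y ∈ Finset.range (N - 1), g y + N := by
        refine add_le_add ?_ ?_
        · refine Finset.sum_le_sum_of_subset_of_nonneg ?_ ?_
          · intro i hi
            rw [Finset.mem_range] at hi ⊢
            omega
          · intro i hi _
            rw [Finset.mem_range] at hi
            exact hg i (by omega)
        · exact_mod_cast (by omega : m ≤ N)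
    _ ≤ (C + 1) * N := by linarith

theorem gs_tails {N k m0 : ℕ} {r l l' : ℕ → ℝ} {a : ℝ} (ha : 2 ≤ a) (haN : a = N)
    (hk : k ≤ N)
    (hR : ∀ z x, z ≤ x → x < N → RR r l' z x ≤ RR r l z x + (a ^ 90)⁻¹) :
    tails N k r l' m0 ≤ tails N k r l m0 + (a ^ 5)⁻¹ := by
  have ha0 : (0 : ℝ) < a := by linarith
  have key : ∀ (p q : ℕ), p ≤ q → p ≤ N →
      ∑ z ∈ Finset.Ico 0 p, ∑ x ∈ Finset.Ico q N, RR r l' z x ≤
        ∑ z ∈ Finset.Ico 0 p, ∑ x ∈ Finset.Ico q N, RR r l z x + a * a * (a ^ 90)⁻¹ := by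
    intro p q hpq hp
    calc ∑ z ∈ Finset.Ico 0 p, ∑ x ∈ Finset.Ico q N, RR r l' z x
        ≤ ∑ z ∈ Finset.Ico 0 p, ∑ x ∈ Finset.Ico q N, (RR r l z x + (a ^ 90)⁻¹) := by
          refine Finset.sum_le_sum fun z hz => Finset.sum_le_sum fun x hx => ?_
          rw [Finset.mem_Ico] at hz hx
          exact hR z x (by omega) (by omega)
      _ = ∑ z ∈ Finset.Ico 0 p, ∑ x ∈ Finset.Ico q N, RR r l z x +
          (p : ℝ) * (((N - q : ℕ) : ℝ) * (a ^ 90)⁻¹) := by
          simp only [Finset.sum_add_distrib, Finset.sum_const, Nat.card_Ico, nsmul_eq_mul,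
            Nat.sub_zero]
      _ ≤ _ := by
          have h1 : (p : ℝ) ≤ a := by rw [haN]; exact_mod_cast hp
          have h2 : ((N - q : ℕ) : ℝ) ≤ a := by
            rw [haN]; exact_mod_cast Nat.sub_le _ _
          have h4 : ((N - q : ℕ) : ℝ) * (a ^ 90)⁻¹ ≤ a * (a ^ 90)⁻¹ :=
            mul_le_mul_of_nonneg_right h2 (by positivity)
          have h3 : (p : ℝ) * (((N - q : ℕ) : ℝ) * (a ^ 90)⁻¹) ≤ a * (a * (a ^ 90)⁻¹) :=
            mul_le_mul h1 h4 (by positivity) (by positivity)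
          linarith
  have k1 := key (N - k - m0) (N - k) (by omega) (by omega)
  have k2 := key (N - k) (N - k + m0) (by omega) (by omega)
  unfold tails
  have k3 : 2 * (a * a * (a ^ 90)⁻¹) ≤ (a ^ 5)⁻¹ := by
    have e : 2 * (a * a * (a ^ 90)⁻¹) = (2 * a ^ 7) * ((a ^ 90)⁻¹ * (a ^ 5)⁻¹) := by
      field_simp
    have e2 : (a ^ 5)⁻¹ = a ^ 90 * ((a ^ 90)⁻¹ * (a ^ 5)⁻¹) := by
      field_simp
    have e3 : 2 * a ^ 7 ≤ a ^ 90 := by
      calc 2 * a ^ 7 ≤ a * a ^ 7 := mul_le_mul_of_nonneg_right ha (by positivity)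
        _ = a ^ 8 := by ring
        _ ≤ a ^ 90 := pow_le_pow_right₀ (by linarith) (by norm_num)
    calc 2 * (a * a * (a ^ 90)⁻¹) = (2 * a ^ 7) * ((a ^ 90)⁻¹ * (a ^ 5)⁻¹) := e
      _ ≤ a ^ 90 * ((a ^ 90)⁻¹ * (a ^ 5)⁻¹) := mul_le_mul_of_nonneg_right e3 (by positivity)
      _ = (a ^ 5)⁻¹ := e2.symm
  linarith

theorem st_GS : ST_GS := by
  intro γ hγ hγ1
  refine ⟨max 2 (⌈(2 : ℝ) ^ (20 / γ)⌉₊), ?_⟩
  intro N k r l w m0 η0 as Cs C1 c1 e0 hN hη G
  have hN2 : 2 ≤ N := le_trans (le_max_left _ _) hN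
  have hNg : (2 : ℝ) ^ (20 / γ) ≤ N := by
    refine le_trans (Nat.le_ceil _) ?_
    exact_mod_cast le_trans (le_max_right _ _) hN
  obtain ⟨a, haN⟩ : ∃ a : ℝ, a = N := ⟨_, rfl⟩
  have ha : 2 ≤ a := by rw [haN]; exact_mod_cast hN2
  have ha0 : (0 : ℝ) < a := by linarith
  have ha1 : (1 : ℝ) ≤ a := by linarith
  have pw : ∀ n : ℕ, (N : ℝ) ^ (-(n : ℝ)) = (a ^ n)⁻¹ := by
    intro n
    rw [← haN, Real.rpow_neg ha0.le, Real.rpow_natCast]
  have p100 : (N : ℝ) ^ (-100 : ℝ) = (a ^ 100)⁻¹ := by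
    have := pw 100; push_cast at this; exact this
  have p2 : (N : ℝ) ^ (-2 : ℝ) = (a ^ 2)⁻¹ := by
    have := pw 2; push_cast at this; exact this
  have p12 : (N : ℝ) ^ (-12 : ℝ) = (a ^ 12)⁻¹ := by
    have := pw 12; push_cast at this; exact this
  have p11 : (N : ℝ) ^ (-11 : ℝ) = (a ^ 11)⁻¹ := by
    have := pw 11; push_cast at this; exact this
  have p5 : (N : ℝ) ^ (-5 : ℝ) = (a ^ 5)⁻¹ := by
    have := pw 5; push_cast at this; exact this
  have q2 : (N : ℝ) ^ (2 : ℝ) = a ^ 2 := by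
    rw [← haN, ← Real.rpow_natCast]; norm_num
  have hmod : modl N l = fun y => max (l y) (a ^ 100)⁻¹ := by
    funext y
    unfold modl
    rw [p100]
  have hr2 : ∀ x, 1 ≤ x → x < N → (a ^ 2)⁻¹ ≤ r x := by
    intro x h1 h2
    rw [← p2]
    exact G.rlow2 x h1 h2
  have hub : ∀ z x, z ≤ x → x < N → RR r l z x ≤ a ^ 2 := by
    intro z x h1 h2
    rw [← q2]
    exact G.rub z x h1 h2
  have hR : ∀ z x, z ≤ x → x < N → RR r (modl N l) z x ≤ RR r l z x + (a ^ 90)⁻¹ := by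
    intro z x h1 h2
    rw [hmod]
    exact gs_key ha G.adm hr2 hub z x h1 h2
  have hRm : ∀ z x, z ≤ x → x < N → RR (mirr N r) (mirr N (modl N l)) z x ≤
      RR (mirr N r) (mirr N l) z x + (a ^ 90)⁻¹ := by
    intro z x h1 h2
    rw [gs_RR_mirr _ _ h2 h1, gs_RR_mirr _ _ h2 h1]
    exact hR _ _ (by omega) (by omega)
  have hw1 := G.w1
  have hA3 := G.hA
  have hB3 := G.hB
  have hkN := G.kN
  have htiny : (1 + η0) ^ (w + 1) ≤ a := by rw [haN]; exact G.tiny
  have hl1 : ∀ y, y + 1 < N → atl r (modl N l) η0 w y ≤ atl r l η0 w y + 1 := by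
    intro y hy
    exact gs_atl ha haN hη (hr2 _ (by omega) hy) htiny hy hR
  have hl2 : ∀ y, y + 1 < N → atl (mirr N r) (mirr N (modl N l)) η0 w y ≤
      atl (mirr N r) (mirr N l) η0 w y + 1 := by
    intro y hy
    refine gs_atl ha haN hη ?_ htiny hy hRm
    unfold mirr
    exact hr2 _ (by omega) (by omega)
  have h90 : (a ^ 90)⁻¹ ≤ (a ^ 12)⁻¹ := by
    apply inv_anti₀ (by positivity)
    exact pow_le_pow_right₀ ha1 (by norm_num)
  have hsmall : (a ^ 90)⁻¹ ≤ 1 := inv_le_one_of_one_le₀ (one_le_pow₀ ha1)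
  refine ⟨?_, ?_, ?_, ?_⟩
  · refine ⟨?_, ?_, ?_, G.tiny, hw1, G.wlog, by omega, by omega, le_rfl, ?_, ?_, ?_, ?_, ?_⟩
    · -- adm
      intro x h1 h2
      obtain ⟨g1, g2, g3, g4⟩ := G.adm x h1 h2
      refine ⟨g1, g2, ?_, ?_⟩
      · exact le_max_of_le_left g3
      · refine max_le g4 ?_
        rw [p100]
        exact inv_le_one_of_one_le₀ (one_le_pow₀ ha1)
    · -- low
      intro x _ _
      exact le_max_right _ _
    · -- far
      intro z x h1 h2
      have i1 := hR z x (by omega) h2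
      have i2 := G.far z x h1 h2
      rw [p12] at i2
      rw [p11]
      have i3 : 2 * (a ^ 12)⁻¹ ≤ (a ^ 11)⁻¹ := by
        have e : (a ^ 11)⁻¹ = a * (a ^ 12)⁻¹ := by field_simp
        rw [e]
        exact mul_le_mul_of_nonneg_right ha (by positivity)
      linarith
    · -- at_l
      intro y _ hy
      have := hl1 y (by omega)
      have := G.at_l y (by omega)
      linarith
    · -- at_r
      intro y _ hy
      have := hl2 y (by omega)
      have := G.at_r y (by omega)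
      linarith
    · -- near
      intro z x h1 h2 h3
      have i1 := hR z x h2 (by omega)
      have i2 := G.near z x h1 h2 h3
      have e1 : (N : ℝ) ^ (γ / 10) = (N : ℝ) ^ (γ / 20) * (N : ℝ) ^ (γ / 20) := by
        rw [← Real.rpow_add (by rw [← haN]; exact ha0)]
        congr 1
        ring
      have e2 : (2 : ℝ) ≤ (N : ℝ) ^ (γ / 20) := by
        have h5 : ((2 : ℝ) ^ (20 / γ)) ^ (γ / 20) = 2 := by
          rw [← Real.rpow_mul (by norm_num)]
          have : 20 / γ * (γ / 20) = 1 := by field_simp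
          rw [this, Real.rpow_one]
        calc (2 : ℝ) = ((2 : ℝ) ^ (20 / γ)) ^ (γ / 20) := h5.symm
          _ ≤ (N : ℝ) ^ (γ / 20) :=
              Real.rpow_le_rpow (by positivity) hNg (by positivity)
      rw [e1]
      nlinarith
    · -- rlow
      intro b h1 h2
      refine le_trans ?_ (G.rlow b h1 h2)
      refine Real.rpow_le_rpow_of_exponent_le (by rw [← haN]; exact ha1) ?_
      linarith
    · -- zs
      have z1 : ∑ z ∈ Finset.Ico (N - k - 3 * w) (N - k), RR r (modl N l) z (N - k) ≤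
          ∑ z ∈ Finset.Ico (N - k - 3 * w) (N - k), RR r l z (N - k) + a * (a ^ 90)⁻¹ := by
        calc ∑ z ∈ Finset.Ico (N - k - 3 * w) (N - k), RR r (modl N l) z (N - k)
            ≤ ∑ z ∈ Finset.Ico (N - k - 3 * w) (N - k), (RR r l z (N - k) + (a ^ 90)⁻¹) := by
              refine Finset.sum_le_sum fun z hz => ?_
              rw [Finset.mem_Ico] at hz
              exact hR _ _ (by omega) (by omega)
          _ = ∑ z ∈ Finset.Ico (N - k - 3 * w) (N - k), RR r l z (N - k) +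
              (((N - k) - (N - k - 3 * w) : ℕ) : ℝ) * (a ^ 90)⁻¹ := by
              rw [Finset.sum_add_distrib, Finset.sum_const, Nat.card_Ico, nsmul_eq_mul]
          _ ≤ _ := by
              have h1 : ((((N - k) - (N - k - 3 * w) : ℕ)) : ℝ) ≤ a := by
                rw [haN]; exact_mod_cast (by omega : (N - k) - (N - k - 3 * w) ≤ N)
              have := mul_le_mul_of_nonneg_right h1 (by positivity : (0 : ℝ) ≤ (a ^ 90)⁻¹)
              linarith
      have z2 : ∑ x ∈ Finset.Ico (N - k) (N - k + 3 * w), RR r (modl N l) (N - k) x ≤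
          ∑ x ∈ Finset.Ico (N - k) (N - k + 3 * w), RR r l (N - k) x + a * (a ^ 90)⁻¹ := by
        calc ∑ x ∈ Finset.Ico (N - k) (N - k + 3 * w), RR r (modl N l) (N - k) x
            ≤ ∑ x ∈ Finset.Ico (N - k) (N - k + 3 * w), (RR r l (N - k) x + (a ^ 90)⁻¹) := by
              refine Finset.sum_le_sum fun z hz => ?_
              rw [Finset.mem_Ico] at hz
              exact hR _ _ (by omega) (by omega)
          _ = ∑ x ∈ Finset.Ico (N - k) (N - k + 3 * w), RR r l (N - k) x +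
              (((N - k + 3 * w) - (N - k) : ℕ) : ℝ) * (a ^ 90)⁻¹ := by
              rw [Finset.sum_add_distrib, Finset.sum_const, Nat.card_Ico, nsmul_eq_mul]
          _ ≤ _ := by
              have h1 : ((((N - k + 3 * w) - (N - k) : ℕ)) : ℝ) ≤ a := by
                rw [haN]; exact_mod_cast (by omega : (N - k + 3 * w) - (N - k) ≤ N)
              have := mul_le_mul_of_nonneg_right h1 (by positivity : (0 : ℝ) ≤ (a ^ 90)⁻¹)
              linarith
      have z3 := G.zs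
      have z4 : 2 * (a * (a ^ 90)⁻¹) ≤ 1 := by
        have e : 2 * (a * (a ^ 90)⁻¹) ≤ a * (a * (a ^ 90)⁻¹) :=
          mul_le_mul_of_nonneg_right ha (by positivity)
        have e2 : a * (a * (a ^ 90)⁻¹) = (a ^ 88)⁻¹ := by field_simp
        have e3 : (a ^ 88)⁻¹ ≤ 1 := inv_le_one_of_one_le₀ (one_le_pow₀ ha1)
        linarith
      linarith
  · rw [p5]
    have := gs_tails (m0 := m0) ha haN hkN hR
    have := G.tail
    linarith
  · exact gs_sum_atl (by omega) (fun y hy => hl1 y (by omega))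
      (fun y hy => gs_atl_nonneg G.adm hη hy) G.suml
  · have e : N - N = 0 := by omega
    rw [e]
    exact gs_sum_atl (by omega) (fun y hy => hl2 y (by omega))
      (fun y hy => gs_atl_nonneg (gs_adm_mirr G.adm) hη hy) G.sumr

end Pool.Agent.Helper98.EX
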